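import Mathlib
import Pool.Agent.H811R3.Tr4

/-!
# The multivariate trace inequality holds with a dimension-free constant

For positive semidefinite matrices `A_1, …, A_n` the number
`Tr √(∑ A_j²) - ∑ Tr A_j` is at least `20 n` times
`∑_{j<k} (‖A_j - A_k‖₁ - Tr (A_j + A_k))`, in every dimension `d`.

Idea of the proof. Split the identity as `1 = T_ij + T_ji*`, where `T_ij` is the part
`∑ P_i^λ P_j^μ` over the eigenvalues with `λ ≤ μ` (ties broken by `i < j`). With
`M_i = ∑_{j ≠ i} T_ij T_ij*` one has `∑ Tr A_i M_i = ∑_{i<j} ∑ min(λ, μ) Tr P_i^λ P_j^μ`, which is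
at most `∑_{i<j} (Tr (A_i + A_j) - ‖A_i - A_j‖₁)`. Cut at `M_i < 1 / (4 n)`: the spectral
projections `Q_i` lose little of `A_i`, and on their ranges the overlap operators
`N_ij = Q_i T_ij Q_j` are small, so that the Gram operator `1 + N + N*` dominates `R* R` for
`R = 1 - 2 n M + N*`. By Douglas' lemma `R = K V` for a contraction `K`, and the components of
`K` are admissible in the duality formula for `Tr √(∑ A_j²)`.
-/

open Matrix
open scoped ComplexOrder MatrixOrder

namespace Pool.Agent.Results.MP_ebd556_mp.TraceInequality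

/-- The trace norm `‖X‖₁ = Tr √(X* X)`, where `CFC.sqrt` is the positive square root. -/
noncomputable def traceNorm {d : ℕ} (X : Matrix (Fin d) (Fin d) ℂ) : ℝ :=
  (CFC.sqrt (Xᴴ * X)).trace.re

/-- `L(A_1, …, A_n) = Tr √(∑_j A_j²) - ∑_j Tr A_j`. -/
noncomputable def L {n d : ℕ} (A : Fin n → Matrix (Fin d) (Fin d) ℂ) : ℝ :=
  (CFC.sqrt (∑ j, A j ^ 2)).trace.re - ∑ j, (A j).trace.re

/-- `R(A_1, …, A_n) = ∑_{j<k} (‖A_j - A_k‖₁ - Tr (A_j + A_k))`. -/
noncomputable def R {n d : ℕ} (A : Fin n → Matrix (Fin d) (Fin d) ℂ) : ℝ :=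
  ∑ j, ∑ k ∈ Finset.Ioi j, (traceNorm (A j - A k) - (A j + A k).trace.re)

/-- For every `n ≥ 1` there is a constant `0 < c ≤ 20 n` such that for every `d` and all positive
semidefinite `d × d` matrices `A_1, …, A_n` one has `L(A_1, …, A_n) ≥ c R(A_1, …, A_n)`. -/
theorem result (n : ℕ) (hn : 1 ≤ n) :
    ∃ c : ℝ, 0 < c ∧ c ≤ 20 * n ∧
      ∀ (d : ℕ) (A : Fin n → Matrix (Fin d) (Fin d) ℂ), (∀ j, (A j).PosSemidef) →
        c * R A ≤ L A := by
  have hn' : (0 : ℝ) < n := by exact_mod_cast hn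
  refine ⟨20 * n, by positivity, le_rfl, fun d A hA => ?_⟩
  have h := Pool.Agent.H811R3.Tr.main n A hA
  have e : R A = -∑ j, ∑ k ∈ Finset.Ioi j, ((A j + A k).trace.re -
      (CFC.sqrt ((A j - A k)ᴴ * (A j - A k))).trace.re) := by
    unfold R traceNorm
    rw [← Finset.sum_neg_distrib]
    apply Finset.sum_congr rfl
    intro j _
    rw [← Finset.sum_neg_distrib]
    apply Finset.sum_congr rfl
    intro k _
    ring
  rw [e]
  unfold L
  linarith

end Pool.Agent.Results.MP_ebd556_mp.TraceInequality
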